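import Pool.Agent.Helper79.GA.MainV3
import Pool.Agent.Helper79.GA.StatH

/-!
# MP_290158_ag: period relations of bounded degree for all families of curves, and their tensor powers

Definitions are in `Pool.Agent.Helper79.CU.StatC` (`CurveForms`, `TensorSub`, `IsLoop`, `period`,
`IsPeriod`, `IsPeriodTS`, `IsBranchOf`), `Pool.Agent.Helper79.GA.StatG` (`mobv`),
`Pool.Agent.Helper79.GA.StatH` (`Few`, `LargeIn`, `RelAt`), `Pool.Agent.Helper79.GX.KDefs` (`kapC`,
`evC`, `BFibreC`, `HasRelationC`) and `Pool.Agent.Helper64.Per.Defs` (`Qbar`, `ZClosure`, `evK`).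
-/

open Polynomial Pool.Agent.Helper79.CU Pool.Agent.Helper79.GA Pool.Agent.Helper79.GX
  Pool.Agent.Helper64.Per

namespace Pool.Agent.Results.MP_290158_ag.CurveFamilies

/-- Let `κ` be a number field, `Φ` a family of curves `F(t, x, y) = 0` over `κ` with forms
`η_1, …, η_N` whose classes are a basis of a Gauss-Manin stable subspace of the relative first de Rham
cohomology, and `E` a sub-connection of the `r`-th tensor power of this connection, with basis
`w^l ω_x`, `l < μ`, over the `t`-line (that is with basis `ω_x` over a curve `S` of degree `μ` over the line with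
coordinate `w`; for `μ = r = 1` the connection itself and subspaces of it). Let
`g(u) = (a u + b) / (c u + e)` be a Moebius transformation over `κ` (for example `g(u) = u`), `U` a connected
open set which contains `g(u)` for all large real `u`, `(t, w t)`, `t ∈ U`, a branch of `S`, and `P` a matrix
of periods (integrals over loops) of the `ω_x` along this branch with `det P ≠ 0`. Then for every `δ`
there are `B`, `C` and `0 < θ < 1` such that for every `n ≥ 1` there are at most `B` natural numbers `i` with
`n ≤ i ≤ n + n^θ`, `t = g(i) ∈ U`, for which there is a relation of degree at most `δ` over `κ(s)` at the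
point `s = (t, w t)` of `S`, and there are at most `C X^(1-θ)` such `i ≤ X`. -/
theorem result {κ : IntermediateField ℚ Qbar} [FiniteDimensional ℚ κ] {N μ r : ℕ} {ι : Type}
    [Fintype ι] [DecidableEq ι] [Nonempty ι] (Φ : CurveForms κ N) (E : TensorSub Φ μ r ι)
    {a b c e : κ} (hg : a * e - b * c ≠ 0) {U : Set ℂ} (hU : IsOpen U) (hU' : IsPreconnected U)
    (hx : LargeIn a b c e U) {w : ℂ → ℂ} (hw : IsBranchOf κ U μ w)
    {P : ℂ → Matrix ι ι ℂ} (hP : IsPeriodTS E U w P) (hdet : ∀ t ∈ U, IsUnit (P t).det) (δ : ℕ) :
    Few (RelAt a b c e U w P δ) := by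
  obtain ⟨x₀, hx⟩ := hx
  exact mainCV Φ E hg hU hU' hx hw hP hdet δ

end Pool.Agent.Results.MP_290158_ag.CurveFamilies
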