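import Pool.Agent.Helper79.GX.KStat

/-!
# MP_290158_ag: period relations of bounded degree in families with a G-connection

Definitions are in `Pool.Agent.Helper79.GX.KDefs` (`betaF`, `GalF`, `kapC`, `evC`, `BFibreC`,
`HasRelationC`), `Pool.Agent.Helper79.GX.KStat` (`GSystem`, `RatExp`, `IsSolOn`, `IsBranch`, `IsPush`) and
`Pool.Agent.Helper64.Per.Defs` (`Qbar`, `ZClosure`, `evK`).
-/

open Polynomial Pool.Agent.Helper79.GX Pool.Agent.Helper64.Per

namespace Pool.Agent.Results.MP_290158_ag.GConnections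

/-- Let `κ` be a number field, `U` a connected open set which contains all real `t` with `|t| > t₀`,
and `(t, w t)`, `t ∈ U`, a branch of a curve `S` over the `t`-line, of degree `m` (for `m = 1` the line
itself). Let `P` be an invertible matrix function on `U` such that the functions `w^l P_{ak}`
(`l < m`: the periods of the push-forward to the `t`-line) are `Z V`, where `Z` is a matrix over `κ[t]`
with nonzero determinant and `V` is analytic and satisfies a linear differential system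
`T V' = A V` over `κ[t]` which satisfies Galochkin's condition (for instance, by a theorem of André,
any Gauss-Manin connection, in a suitable basis) and has a simple pole at infinity, with residue
matrix `-N` all of whose eigenvalues are rational. For every `δ` there are `B`, `C` and `0 < θ < 1`
such that for every `n ≥ 1` there are at most `B` integers `i ∈ U` with `n ≤ |i| ≤ n + n^θ` for which
`P` has a relation of degree at most `δ` over `κ(s)` at the point `s = (i, w i)`, and there are at most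
`C X^(1-θ)` such `i` with `|i| ≤ X`. -/
theorem result {ι : Type} [Fintype ι] [DecidableEq ι] [Nonempty ι] {κ : IntermediateField ℚ Qbar}
    [FiniteDimensional ℚ κ] {m : ℕ} {T : ℤ[X]}
    {A : Matrix (Fin m × ι) (Fin m × ι) (Polynomial κ)} {N : Matrix (Fin m × ι) (Fin m × ι) κ}
    (hA : GSystem T A N) (hN : RatExp N) {U : Set ℂ} (hU : IsOpen U) (hU' : IsPreconnected U)
    {t₀ : ℝ} (ht : ∀ t : ℝ, t₀ < |t| → (t : ℂ) ∈ U) {w : ℂ → ℂ} (hw : IsBranch κ U m w)
    {V : ℂ → Matrix (Fin m × ι) ι ℂ} (hV : IsSolOn U T A V) {P : ℂ → Matrix ι ι ℂ}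
    (hP : IsPush κ U m w P V) (hdet : ∀ t ∈ U, IsUnit (P t).det) (δ : ℕ) :
    ∃ (B : ℕ) (θ C : ℝ), 0 < θ ∧ θ < 1 ∧
      (∀ n : ℕ, 1 ≤ n → Set.ncard {i : ℤ | (n : ℝ) ≤ |(i : ℝ)| ∧
        |(i : ℝ)| ≤ n + (n : ℝ) ^ θ ∧ ((i : ℂ) ∈ U ∧ HasRelationC U w P (i : ℂ) κ δ)} ≤ B) ∧
      ∀ X : ℕ, 1 ≤ X → (Set.ncard {i : ℤ | |(i : ℝ)| ≤ X ∧
        ((i : ℂ) ∈ U ∧ HasRelationC U w P (i : ℂ) κ δ)} : ℝ) ≤ C * (X : ℝ) ^ (1 - θ) := by
  obtain ⟨f, hf⟩ := hw.eqn
  obtain ⟨Z, hZ, hZP⟩ := hP
  exact mainK hA.gal hA.deg hA.res hN hU hU' ht hw.analytic hf hV.analytic hV.ode hZ hZP hdet δ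

end Pool.Agent.Results.MP_290158_ag.GConnections
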